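import Pool.Agent.H466.HD.SA

/-!
# Gaussian tails of local averages (`S_GT`, project HD of helper466)
-/

set_option autoImplicit false

namespace Pool.Agent.H102.HD

open MeasureTheory Set Filter Topology Pool.Agent.H466.HD

theorem exists_T0 : ∃ T0 : ℝ, 10 ≤ T0 ∧ ∀ T : ℝ, T0 ≤ T → ∀ x : ℝ, T / (8 * Real.log T) ≤ x →
    T ^ 21 * (1 + T + x) ^ 20 * Real.exp (-(x ^ 2 / 4)) ≤ 1 := by
  have h1 := Real.tendsto_pow_mul_exp_neg_atTop_nhds_zero 41
  have h2 : ∀ᶠ y : ℝ in atTop, y ^ 41 * Real.exp (-y) < 1 / (3 ^ 20 * 4 ^ 41) :=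
    h1.eventually_lt_const (by positivity)
  obtain ⟨Y0, hY0⟩ := eventually_atTop.1 h2
  refine ⟨max (2 ^ 20) (4 * Y0), le_max_of_le_left (by norm_num), ?_⟩
  intro T hT x hx
  have hT1 : (2 : ℝ) ^ 20 ≤ T := (le_max_left _ _).trans hT
  have hT2 : 4 * Y0 ≤ T := (le_max_right _ _).trans hT
  have hTpos : 0 < T := by linarith [show (0 : ℝ) < 2 ^ 20 by positivity]
  set s := Real.sqrt (Real.sqrt T) with hs
  have hs2 : s ^ 2 = Real.sqrt T := Real.sq_sqrt (Real.sqrt_nonneg _)
  have hs4 : s ^ 4 = T := by
    have : s ^ 4 = (s ^ 2) ^ 2 := by ring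
    rw [this, hs2, Real.sq_sqrt hTpos.le]
  have hs0 : 0 ≤ s := Real.sqrt_nonneg _
  have hs32 : 32 ≤ s := by
    by_contra hlt
    push Not at hlt
    have : s ^ 4 < 32 ^ 4 := pow_lt_pow_left₀ hlt hs0 (by norm_num)
    rw [hs4] at this
    norm_num at this hT1
    linarith
  have hspos : 0 < s := by linarith
  have hlog : Real.log T ≤ 4 * s := by
    rw [← hs4, Real.log_pow]
    have := Real.log_le_sub_one_of_pos hspos
    push_cast
    linarith
  have hlogpos : 0 < Real.log T := Real.log_pos (by norm_num at hT1; linarith)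
  have hxs : s ^ 2 ≤ x := by
    refine le_trans ?_ hx
    rw [le_div_iff₀ (by positivity)]
    nlinarith [hs4, hlog, hlogpos, hs32, sq_nonneg s, pow_pos hspos 2, pow_pos hspos 3]
  have hx1 : 1 ≤ x := by nlinarith
  have hx0 : 0 < x := by linarith
  have hTx : T ≤ x ^ 2 := by
    have : (s ^ 2) ^ 2 ≤ x ^ 2 := pow_le_pow_left₀ (by positivity) hxs 2
    calc T = (s ^ 2) ^ 2 := by rw [← hs4]; ring
      _ ≤ x ^ 2 := this
  have h3 : T ^ 21 * (1 + T + x) ^ 20 ≤ (x ^ 2) ^ 21 * (3 * x ^ 2) ^ 20 := by
    apply mul_le_mul (pow_le_pow_left₀ hTpos.le hTx 21)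
    · apply pow_le_pow_left₀ (by positivity)
      nlinarith
    · positivity
    · positivity
  have h4 := (hY0 (x ^ 2 / 4) (by linarith)).le
  rw [le_div_iff₀ (by positivity)] at h4
  calc T ^ 21 * (1 + T + x) ^ 20 * Real.exp (-(x ^ 2 / 4))
      ≤ (x ^ 2) ^ 21 * (3 * x ^ 2) ^ 20 * Real.exp (-(x ^ 2 / 4)) :=
        mul_le_mul_of_nonneg_right h3 (Real.exp_pos _).le
    _ = (x ^ 2 / 4) ^ 41 * Real.exp (-(x ^ 2 / 4)) * (3 ^ 20 * 4 ^ 41) := by ring
    _ ≤ 1 := h4

theorem gt : S_GT := by
  obtain ⟨T0, hT0, hx0⟩ := exists_T0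
  refine ⟨T0, hT0, ?_⟩
  intro T w0 R f hT hw hw1 hR hf hf0 hfb
  have hT10 : 10 ≤ T := hT0.trans hT
  have hTpos : 0 < T := by linarith
  have hL : 1 ≤ Real.log T := by
    have h := Real.log_le_log (Real.exp_pos 1)
      (show Real.exp 1 ≤ T by linarith [Real.exp_one_lt_d9])
    rwa [Real.log_exp] at h
  set L := Real.log T with hLdef
  set X := T / (8 * L) with hX
  have hXpos : 0 < X := by positivity
  have hXT : X ≤ T := by
    rw [hX, div_le_iff₀ (by positivity)]
    exact le_mul_of_one_le_right hTpos.le (by linarith)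
  have hX2 : T / (4 * L) = 2 * X := by rw [hX]; field_simp; norm_num
  rw [hX2]
  set b : ℝ := 1 / (4 * w0 ^ 2) with hb
  have hbpos : 0 < b := by positivity
  have hb4 : 1 / 4 ≤ b := by
    rw [hb]
    apply one_div_le_one_div_of_le (by positivity)
    have : w0 ^ 2 ≤ 1 := pow_le_one₀ hw.le hw1
    linarith
  set g : ℝ → ℝ := fun x => Real.exp (-b * x ^ 2) with hg
  have hgc : Continuous g := by rw [hg]; fun_prop
  have hg0 : ∀ x, 0 < g x := fun x => Real.exp_pos _
  have hgint : Integrable g := integrable_exp_neg_mul_sq hbpos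
  have hgval : ∫ x, g x = 2 * w0 * Real.sqrt Real.pi := by
    rw [hg, integral_gaussian]
    have : Real.pi / b = (2 * w0) ^ 2 * Real.pi := by rw [hb]; field_simp; norm_num
    rw [this, Real.sqrt_mul (by positivity), Real.sqrt_sq (by positivity)]
  have hsq : ∀ x : ℝ, Real.exp (-x ^ 2 / (2 * w0 ^ 2)) = g x * g x := by
    intro x
    rw [hg]
    simp only
    rw [← Real.exp_add]
    congr 1
    rw [hb]; field_simp; ring
  set c0 : ℝ := 1 / (w0 * Real.sqrt (2 * Real.pi)) with hc0
  have hc0pos : 0 < c0 := by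
    have : 0 < Real.sqrt (2 * Real.pi) := Real.sqrt_pos.2 (by positivity)
    positivity
  have hc0val : c0 * (2 * w0 * Real.sqrt Real.pi) = Real.sqrt 2 := by
    rw [hc0, Real.sqrt_mul (by norm_num)]
    have h1 : 0 < Real.sqrt 2 := by positivity
    have h2 : 0 < Real.sqrt Real.pi := Real.sqrt_pos.2 Real.pi_pos
    field_simp
    rw [Real.sq_sqrt (by norm_num)]
  have hs2 : Real.sqrt 2 ≤ 2 := by
    rw [Real.sqrt_le_left (by norm_num)]; norm_num
  set eR := Real.exp (-(R ^ 2 / (4 * w0 ^ 2))) with heR
  have heRpos : 0 < eR := Real.exp_pos _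
  -- the local mean
  set H : ℝ → ℝ := fun t => ∫ y in (T - 2 * X)..(T + 2 * X), f y * g (y - t) with hH
  have hHc : Continuous H := by
    rw [hH]
    apply intervalIntegral.continuous_parametric_intervalIntegral_of_continuous'
    fun_prop
  have hgt : ∀ x : ℝ, R ≤ |x| → g x ≤ eR := by
    intro x hx
    rw [hg, heR]
    simp only
    rw [Real.exp_le_exp]
    have h1 : R ^ 2 ≤ x ^ 2 := by
      rw [← sq_abs x]; exact pow_le_pow_left₀ hR hx 2
    have h2 : R ^ 2 / (4 * w0 ^ 2) = b * R ^ 2 := by rw [hb]; ring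
    rw [h2]
    have h3 := mul_le_mul_of_nonneg_left h1 hbpos.le
    linarith
  have hfar : ∀ t ∈ Icc (T - X) (T + X), ∀ y, X < |y - t| → f y * g (y - t) ≤ 1 / T := by
    intro t ht y hy
    have h1 : |y - T| ≤ |y - t| + T := by
      have h2 : |t - T| ≤ X := by rw [abs_le]; constructor <;> linarith [ht.1, ht.2]
      have h3 : |y - T| ≤ |y - t| + |t - T| := by
        have := abs_add_le (y - t) (t - T)
        simpa using this
      linarith
    have h2 : f y ≤ T ^ 20 * (1 + T + |y - t|) ^ 20 := by
      refine (hfb y).trans (mul_le_mul_of_nonneg_left ?_ (by positivity))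
      apply pow_le_pow_left₀ (by positivity)
      linarith
    have h3 : g (y - t) ≤ Real.exp (-(|y - t| ^ 2 / 4)) := by
      rw [hg, sq_abs]
      simp only
      rw [Real.exp_le_exp]
      have h5 := mul_le_mul_of_nonneg_right hb4 (sq_nonneg (y - t))
      linarith
    have h4 := hx0 T hT _ hy.le
    rw [le_div_iff₀ hTpos]
    calc f y * g (y - t) * T
        ≤ (T ^ 20 * (1 + T + |y - t|) ^ 20 * Real.exp (-(|y - t| ^ 2 / 4))) * T := by
          apply mul_le_mul_of_nonneg_right _ hTpos.le
          exact mul_le_mul h2 h3 (hg0 _).le (by positivity)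
      _ = T ^ 21 * (1 + T + |y - t|) ^ 20 * Real.exp (-(|y - t| ^ 2 / 4)) := by ring
      _ ≤ 1 := h4
  have key : ∀ t ∈ Icc (T - X) (T + X), c0 * ∫ y in {y : ℝ | R ≤ |y - t|},
      f y * Real.exp (-(y - t) ^ 2 / (2 * w0 ^ 2)) ≤ c0 * eR * H t + Real.sqrt 2 / T := by
    intro t ht
    set φ : ℝ → ℝ := fun y => eR * (Icc (T - 2 * X) (T + 2 * X)).indicator
      (fun y => f y * g (y - t)) y + 1 / T * g (y - t) with hφ
    have hi1 : Integrable ((Icc (T - 2 * X) (T + 2 * X)).indicator (fun y => f y * g (y - t))) := by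
      rw [integrable_indicator_iff measurableSet_Icc]
      exact Continuous.integrableOn_Icc (by fun_prop)
    have hi2 : Integrable (fun y => g (y - t)) := hgint.comp_sub_right t
    have hφi : Integrable φ := (hi1.const_mul _).add (hi2.const_mul _)
    have hφv : ∫ y, φ y = eR * H t + 1 / T * (2 * w0 * Real.sqrt Real.pi) := by
      rw [hφ, integral_add (hi1.const_mul _) (hi2.const_mul _), integral_const_mul,
        integral_const_mul, integral_indicator measurableSet_Icc, integral_Icc_eq_integral_Ioc,
        integral_sub_right_eq_self (fun y => g y) t, hgval, hH]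
      simp only
      rw [intervalIntegral.integral_of_le (by linarith)]
    have hS : MeasurableSet {y : ℝ | R ≤ |y - t|} := by
      apply IsClosed.measurableSet
      exact isClosed_le continuous_const (by fun_prop)
    have hle : ∫ y in {y : ℝ | R ≤ |y - t|}, f y * Real.exp (-(y - t) ^ 2 / (2 * w0 ^ 2)) ≤
        ∫ y, φ y := by
      rw [← integral_indicator hS]
      apply integral_mono_of_nonneg
      · refine Eventually.of_forall fun y => ?_
        exact indicator_nonneg (fun y _ => mul_nonneg (hf0 y) (Real.exp_pos _).le) y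
      · exact hφi
      · refine Eventually.of_forall fun y => ?_
        have hφ0 : 0 ≤ eR * (Icc (T - 2 * X) (T + 2 * X)).indicator
            (fun y => f y * g (y - t)) y :=
          mul_nonneg heRpos.le (indicator_nonneg (fun y _ => mul_nonneg (hf0 y) (hg0 _).le) y)
        have hφ1 : 0 ≤ 1 / T * g (y - t) := mul_nonneg (by positivity) (hg0 _).le
        by_cases hy : y ∈ {y : ℝ | R ≤ |y - t|}
        · rw [indicator_of_mem hy, hsq]
          by_cases hyX : |y - t| ≤ X
          · have hyI : y ∈ Icc (T - 2 * X) (T + 2 * X) := by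
              have := abs_le.1 hyX
              constructor <;> linarith [ht.1, ht.2, this.1, this.2]
            have h1 : f y * (g (y - t) * g (y - t)) ≤ eR * (f y * g (y - t)) := by
              have := mul_le_mul_of_nonneg_left (hgt _ hy) (mul_nonneg (hf0 y) (hg0 (y - t)).le)
              linarith
            simp only [hφ]
            rw [indicator_of_mem hyI]
            linarith
          · push Not at hyX
            have h1 := mul_le_mul_of_nonneg_right (hfar t ht y hyX) (hg0 (y - t)).le
            simp only [hφ]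
            linarith
        · rw [indicator_of_notMem hy]
          simp only [hφ]
          linarith
    calc c0 * ∫ y in {y : ℝ | R ≤ |y - t|}, f y * Real.exp (-(y - t) ^ 2 / (2 * w0 ^ 2))
        ≤ c0 * ∫ y, φ y := mul_le_mul_of_nonneg_left hle hc0pos.le
      _ = c0 * eR * H t + (c0 * (2 * w0 * Real.sqrt Real.pi)) / T := by rw [hφv]; ring
      _ = c0 * eR * H t + Real.sqrt 2 / T := by rw [hc0val]
  have hH0 : ∀ t, 0 ≤ H t := by
    intro t
    apply intervalIntegral.integral_nonneg (by linarith)
    intro y _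
    exact mul_nonneg (hf0 y) (hg0 _).le
  -- exchange of the integrals
  have hswap : ∫ t in (T - X)..(T + X), H t ≤
      2 * w0 * Real.sqrt Real.pi * ∫ y in (T - 2 * X)..(T + 2 * X), f y := by
    have h1 : ∫ t in (T - X)..(T + X), H t =
        ∫ y in (T - 2 * X)..(T + 2 * X), ∫ t in (T - X)..(T + X), f y * g (y - t) := by
      rw [hH]
      apply intervalIntegral_intervalIntegral_swap
      apply IntegrableOn.mono_set (t := Icc (T - X) (T + X) ×ˢ Icc (T - 2 * X) (T + 2 * X))
      · apply ContinuousOn.integrableOn_compact (isCompact_Icc.prod isCompact_Icc)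
        apply Continuous.continuousOn
        fun_prop
      · rw [uIoc_of_le (by linarith), uIoc_of_le (by linarith)]
        exact prod_mono Ioc_subset_Icc_self Ioc_subset_Icc_self
    rw [h1, ← intervalIntegral.integral_const_mul]
    apply intervalIntegral.integral_mono_on (by linarith)
    · apply Continuous.intervalIntegrable
      apply intervalIntegral.continuous_parametric_intervalIntegral_of_continuous'
      fun_prop
    · exact (hf.const_mul _).intervalIntegrable _ _
    · intro y _
      rw [intervalIntegral.integral_const_mul, mul_comm]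
      apply mul_le_mul_of_nonneg_right _ (hf0 y)
      rw [intervalIntegral.integral_of_le (by linarith)]
      have hi : Integrable (fun t => g (y - t)) := hgint.comp_sub_left y
      calc ∫ t in Ioc (T - X) (T + X), g (y - t)
          ≤ ∫ t, g (y - t) := setIntegral_le_integral hi (Eventually.of_forall fun t => (hg0 _).le)
        _ = ∫ x, g x := integral_sub_left_eq_self g volume y
        _ = 2 * w0 * Real.sqrt Real.pi := hgval
  have hf1 : 0 ≤ ∫ y in (T - 2 * X)..(T + 2 * X), f y :=
    intervalIntegral.integral_nonneg (by linarith) (fun y _ => hf0 y)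
  have hfin : ∫ t in (T - X)..(T + X), (c0 * eR * H t + Real.sqrt 2 / T) ≤
      2 * eR * (∫ y in (T - 2 * X)..(T + 2 * X), f y) + 1 := by
    rw [intervalIntegral.integral_add ((hHc.const_mul _).intervalIntegrable _ _)
      (continuous_const.intervalIntegrable _ _), intervalIntegral.integral_const_mul,
      intervalIntegral.integral_const]
    have h1 : c0 * eR * ∫ t in (T - X)..(T + X), H t ≤
        2 * eR * ∫ y in (T - 2 * X)..(T + 2 * X), f y := by
      calc c0 * eR * ∫ t in (T - X)..(T + X), H t
          ≤ c0 * eR * (2 * w0 * Real.sqrt Real.pi * ∫ y in (T - 2 * X)..(T + 2 * X), f y) :=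
            mul_le_mul_of_nonneg_left hswap (by positivity)
        _ = (c0 * (2 * w0 * Real.sqrt Real.pi)) * (eR * ∫ y in (T - 2 * X)..(T + 2 * X), f y) := by
            ring
        _ ≤ 2 * (eR * ∫ y in (T - 2 * X)..(T + 2 * X), f y) := by
            rw [hc0val]
            exact mul_le_mul_of_nonneg_right hs2 (by positivity)
        _ = _ := by ring
    have h2 : (T + X - (T - X)) • (Real.sqrt 2 / T) ≤ 1 := by
      rw [smul_eq_mul]
      have h3 : T + X - (T - X) = T / (4 * L) := by rw [hX2]; ring
      rw [h3]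
      have h4 : T / (4 * L) * (Real.sqrt 2 / T) = Real.sqrt 2 / (4 * L) := by
        field_simp
      rw [h4, div_le_one (by positivity)]
      linarith
    linarith
  by_cases hG : IntervalIntegrable (fun t => c0 * ∫ y in {y : ℝ | R ≤ |y - t|},
      f y * Real.exp (-(y - t) ^ 2 / (2 * w0 ^ 2))) volume (T - X) (T + X)
  · refine le_trans (intervalIntegral.integral_mono_on (by linarith) hG ?_ key) hfin
    exact ((hHc.const_mul _).add continuous_const).intervalIntegrable _ _
  · rw [intervalIntegral.integral_undef hG]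
    positivity

end Pool.Agent.H102.HD
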